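import Pool.Agent.Helper2.NNQ.Stm
import Pool.Agent.Helper601.BT

/-! # Piece BTN of helper2's project NNQ -/

set_option autoImplicit false

namespace Pool.Agent.Helper71.NNQ

open Finset

theorem t_BTN : Pool.Agent.Helper2.NNQ.S_BTN := by
  obtain ⟨C, hC, h⟩ := Pool.Agent.Helper601.brun_titchmarsh
  refine ⟨C + 1, by linarith, ?_⟩
  intro v N hN
  have h1 := h v.toNat 1 N hN (Or.inl rfl)
  set S := (Finset.Icc v (v + N)).filter (fun q : ℤ => q.toNat.Prime) with hS
  set T := (Finset.range N).filter (fun k => (v.toNat + k * 1).Prime) with hT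
  have hmap : ∀ q ∈ S, q.toNat - v.toNat ∈ insert N T := by
    intro q hq
    rw [hS, mem_filter, mem_Icc] at hq
    have hp := hq.2.two_le
    rw [mem_insert]
    by_cases he : q.toNat - v.toNat = N
    · exact Or.inl he
    · right
      rw [hT, mem_filter, mem_range]
      have e : v.toNat + (q.toNat - v.toNat) * 1 = q.toNat := by omega
      rw [e]
      exact ⟨by omega, hq.2⟩
  have hinj : Set.InjOn (fun q : ℤ => q.toNat - v.toNat) S := by
    intro q hq q' hq' hqq
    rw [Finset.mem_coe, hS, mem_filter, mem_Icc] at hq hq'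
    have hp := hq.2.two_le
    have hp' := hq'.2.two_le
    simp only at hqq
    omega
  have hcard : S.card ≤ T.card + 1 :=
    (Finset.card_le_card_of_injOn _ hmap hinj).trans (Finset.card_insert_le _ _)
  have hN' : (2 : ℝ) ≤ N := by exact_mod_cast hN
  have hlog : 0 < Real.log N := Real.log_pos (by linarith)
  have hle : Real.log N ≤ N := (Real.log_le_sub_one_of_pos (by linarith)).trans (by linarith)
  have h2 : (1 : ℝ) ≤ N / Real.log N := by
    rw [le_div_iff₀ hlog]; linarith
  have h3 : (S.card : ℝ) ≤ T.card + 1 := by exact_mod_cast hcard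
  have e : (C + 1) * N / Real.log N = C * N / Real.log N + N / Real.log N := by ring
  rw [e]
  linarith

end Pool.Agent.Helper71.NNQ
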